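import Pool.Agent.Helper873.EpDef
import Pool.Agent.Helper873.EpF

open MeasureTheory

namespace Pool.Agent.Results.MP_d61770_an.SmallerExponent

open Pool.Agent.Helper873.Ep

/-- For every real `p ≥ 1` there are a symmetric measure `μ` and a function `f ∈ E^p(μ)` that is
weakly invertible in `E^q(μ)` for every `0 < q < p` but not weakly invertible in `E^p(μ)`. -/
theorem result (p : ℝ) (hp : 1 ≤ p) :
    ∃ μ : Measure ℂ, IsSymmetric μ ∧ ∃ f : ℂ → ℂ, MemEp μ p f ∧
      (∀ q : ℝ, 0 < q → q < p → WeaklyInvertible μ q f) ∧ ¬ WeaklyInvertible μ p f := by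
  have hp0 : 0 < p := by linarith
  obtain ⟨μ, F, hμ, hF, hmem, hwi, hnot⟩ := main p hp
  have h1 : (fun z => Complex.exp (((1 : ℝ) : ℂ) * F z)) = fun z => Complex.exp (F z) := by
    funext z
    rw [Complex.ofReal_one, one_mul]
  refine ⟨μ, hμ, fun z => Complex.exp (F z), ?_, ?_, hnot⟩
  · rw [← h1]
    exact hmem 1 p one_pos hp0 (by linarith)
  · intro q hq hqp
    rw [← h1]
    exact hwi 1 q one_pos hq (by linarith)

end Pool.Agent.Results.MP_d61770_an.SmallerExponent
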